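import Pool.Agent.Lib.MP_cb75a6_co.Dis.Stmt
import Pool.Agent.Lib.MP_cb75a6_co.Dis.FIN

namespace Pool.Agent.Results.MP_cb75a6_co.ConditionalInequalityFails

/-- Q1 is false: there are a finite poset with connected Hasse diagram and two distinct minimal
elements `a`, `b` of it such that the probability that the element carrying label `1` in
`L_{n-2}` lies above `b` and above no other minimal element is strictly smaller given `L(a) = n`
than given `L(b) = n`. -/
theorem result : ∃ (P : Type) (_ : PartialOrder P) (_ : Fintype P),
    (SimpleGraph.hasse P).Connected ∧
      ∃ a b : P, IsMin a ∧ IsMin b ∧ a ≠ b ∧ CPI.condPr b a < CPI.condPr b b :=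
  CPI.result_core

end Pool.Agent.Results.MP_cb75a6_co.ConditionalInequalityFails
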